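import Mathlib

/-!
# The Banach algebra `ℓ₁(G)` of a discrete group: definitions

`L1 G` is the Banach space of absolutely summable complex functions on `G` and `conv` is
convolution, `(f * h) x = ∑ y, f y * h (y⁻¹ x)`.
-/

open scoped ENNReal

namespace L1G

/-- `ℓ₁(G)`: absolutely summable functions `G → ℂ` with the norm `∑ |f x|`. -/
noncomputable abbrev L1 (G : Type*) := lp (fun _ : G => ℂ) 1

variable {G : Type*}

theorem summable_norm (f : L1 G) : Summable fun x => ‖f x‖ := by
  have h := (memℓp_gen_iff (by simp)).1 (lp.memℓp f)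
  simpa using h

theorem norm_eq (f : L1 G) : ‖f‖ = ∑' x, ‖f x‖ := by
  rw [lp.norm_eq_tsum_rpow (by simp)]
  simp

theorem memlp_of_summable {f : G → ℂ} (h : Summable fun x => ‖f x‖) : Memℓp f 1 := by
  apply memℓp_gen
  simpa using h

/-- Convolution of two functions on a group, `(f * h) x = ∑ y, f y * h (y⁻¹ x)`. -/
noncomputable def convFun [Group G] (f h : G → ℂ) (x : G) : ℂ :=
  ∑' y : G, f y * h (y⁻¹ * x)

theorem summable_conv_prod [Group G] {f h : G → ℂ} (hf : Summable fun x => ‖f x‖)
    (hh : Summable fun x => ‖h x‖) :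
    Summable fun p : G × G => ‖f p.2 * h (p.2⁻¹ * p.1)‖ := by
  have h1 : Summable fun p : G × G => ‖f p.1‖ * ‖h p.2‖ :=
    Summable.mul_of_nonneg hf hh (fun _ => norm_nonneg _) (fun _ => norm_nonneg _)
  let e : G × G ≃ G × G :=
    (Equiv.prodShear (Equiv.refl G) (fun y : G => Equiv.mulLeft y)).trans (Equiv.prodComm G G)
  have h2 : (fun p : G × G => ‖f p.1‖ * ‖h p.2‖) =
      (fun p : G × G => ‖f p.2 * h (p.2⁻¹ * p.1)‖) ∘ e := by
    funext p
    simp [e, Equiv.prodShear]
  rw [h2] at h1
  exact (Equiv.summable_iff e).1 h1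

theorem convFun_mem [Group G] (f h : L1 G) : Memℓp (convFun (f : G → ℂ) h) 1 := by
  apply memlp_of_summable
  have h1 := summable_conv_prod (summable_norm f) (summable_norm h)
  have h2 : Summable fun x => ∑' y, ‖f y * h (y⁻¹ * x)‖ := h1.prod
  refine Summable.of_nonneg_of_le (fun _ => norm_nonneg _) (fun x => ?_) h2
  exact norm_tsum_le_tsum_norm (h1.prod_factor x)

/-- Convolution on `ℓ₁(G)`. -/
noncomputable def conv [Group G] (f h : L1 G) : L1 G := ⟨convFun (f : G → ℂ) h, convFun_mem f h⟩

theorem conv_apply [Group G] (f h : L1 G) (x : G) :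
    conv f h x = ∑' y : G, f y * h (y⁻¹ * x) := rfl

theorem summable_conv [Group G] (f h : L1 G) (x : G) :
    Summable fun y => f y * h (y⁻¹ * x) :=
  ((summable_conv_prod (summable_norm f) (summable_norm h)).prod_factor x).of_norm

end L1G
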