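import Pool.Agent.helper28.L1.Reg

/-!
# Expanding elements of the group algebra with large inverses
-/

open scoped ENNReal

namespace L1G

variable {G : Type*}


/-- The `ℓ₁` norm on the group algebra. -/
noncomputable def N (f : MonoidAlgebra ℂ G) : ℝ := ∑' x, ‖f.coeff x‖

theorem summable_coeff (f : MonoidAlgebra ℂ G) : Summable fun x => ‖f.coeff x‖ := by
  apply summable_of_hasFiniteSupport
  apply Set.Finite.subset f.coeff.hasFiniteSupport
  intro x hx
  simpa using hx

theorem N_nonneg (f : MonoidAlgebra ℂ G) : 0 ≤ N f := tsum_nonneg fun _ => norm_nonneg _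

theorem N_add_le (f g : MonoidAlgebra ℂ G) : N (f + g) ≤ N f + N g := by
  unfold N
  rw [← (summable_coeff f).tsum_add (summable_coeff g)]
  refine Summable.tsum_le_tsum (fun x => ?_) (summable_coeff _)
    ((summable_coeff f).add (summable_coeff g))
  simpa using norm_add_le (f.coeff x) (g.coeff x)

theorem N_neg (f : MonoidAlgebra ℂ G) : N (-f) = N f := by simp [N]

theorem N_sub_le (f g : MonoidAlgebra ℂ G) : N (f - g) ≤ N f + N g := by
  rw [sub_eq_add_neg, ← N_neg g]; exact N_add_le _ _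

theorem N_zero : N (0 : MonoidAlgebra ℂ G) = 0 := by simp [N]

theorem N_eq_sum (f : MonoidAlgebra ℂ G) : N f = ∑ x ∈ f.coeff.support, ‖f.coeff x‖ := by
  unfold N
  apply tsum_eq_sum
  intro x hx
  simpa using hx

theorem N_smul (c : ℂ) (f : MonoidAlgebra ℂ G) : N (c • f) = ‖c‖ * N f := by
  unfold N
  rw [← tsum_mul_left]
  simp

theorem N_sum_le {ι : Type*} (s : Finset ι) (f : ι → MonoidAlgebra ℂ G) : N (∑ i ∈ s, f i) ≤ ∑ i ∈ s, N (f i) := by
  classical
  induction s using Finset.induction_on with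
  | empty => simp [N_zero]
  | insert i s hi ih =>
    rw [Finset.sum_insert hi, Finset.sum_insert hi]
    exact (N_add_le _ _).trans (by gcongr)

theorem N_pos {f : MonoidAlgebra ℂ G} (hf : f ≠ 0) : 0 < N f := by
  have : ∃ x, f.coeff x ≠ 0 := by
    by_contra h
    push Not at h
    apply hf
    ext x
    simpa using h x
  obtain ⟨x, hx⟩ := this
  exact (summable_coeff f).tsum_pos (fun _ => norm_nonneg _) x (by positivity)

theorem N_add_of_disjoint (f g : MonoidAlgebra ℂ G) (h : ∀ x, f.coeff x = 0 ∨ g.coeff x = 0) :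
    N (f + g) = N f + N g := by
  unfold N
  rw [← (summable_coeff f).tsum_add (summable_coeff g)]
  congr 1
  funext x
  rcases h x with h | h <;> simp [h]

theorem N_single (g : G) (c : ℂ) : N (MonoidAlgebra.single g c) = ‖c‖ := by
  classical
  unfold N
  rw [tsum_eq_single g]
  · simp
  · intro x hx
    simp [hx.symm]

variable [Group G]

theorem N_single_mul (g : G) (c : ℂ) (f : MonoidAlgebra ℂ G) :
    N (MonoidAlgebra.single g c * f) = ‖c‖ * N f := by
  unfold N
  rw [← tsum_mul_left, ← Equiv.tsum_eq (Equiv.mulLeft g)]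
  congr 1
  funext x
  simp [MonoidAlgebra.coeff_single_mul_apply]

theorem N_mul_le (f g : MonoidAlgebra ℂ G) : N (f * g) ≤ N f * N g := by
  have h1 : f = ∑ x ∈ f.coeff.support, MonoidAlgebra.single x (f.coeff x) := by
    conv_lhs => rw [← MonoidAlgebra.sum_coeff_single f]
    rfl
  have h2 : f * g = ∑ x ∈ f.coeff.support, MonoidAlgebra.single x (f.coeff x) * g := by
    conv_lhs => rw [h1]
    rw [Finset.sum_mul]
  rw [h2, N_eq_sum f, Finset.sum_mul]
  refine (N_sum_le _ _).trans (Finset.sum_le_sum fun x _ => ?_)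
  rw [N_single_mul]

theorem N_pow_mul_le (t b : MonoidAlgebra ℂ G) (k : ℕ) : N (t ^ k * b) ≤ N t ^ k * N b := by
  induction k with
  | zero => simp
  | succ k ih =>
    rw [pow_succ', mul_assoc, pow_succ', mul_assoc]
    exact (N_mul_le _ _).trans (mul_le_mul_of_nonneg_left ih (N_nonneg _))

theorem ne_zero_of_expanding {a b : MonoidAlgebra ℂ G} (ha : Expanding a) (hb : b ≠ 0) : a * b ≠ 0 := by
  classical
  intro h
  apply hb
  let δ : L2 G := lp.single 2 (1 : G) (1 : ℂ)
  have h1 : Lam a (Lam b δ) = 0 := by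
    have := congrArg (fun T => Lam T δ) h
    simpa using this
  have h2 : Lam b δ = 0 := by
    have := ha (Lam b δ)
    rw [h1, norm_zero] at this
    exact norm_eq_zero.1 (le_antisymm this (norm_nonneg _))
  ext x
  have h3 : (Lam b δ) x = b.coeff x := by
    have e : b = ∑ y ∈ b.coeff.support, MonoidAlgebra.single y (b.coeff y) := by
      conv_lhs => rw [← MonoidAlgebra.sum_coeff_single b]
      rfl
    conv_lhs => rw [e]
    rw [map_sum, sum_apply]
    have : ∀ y ∈ b.coeff.support, Lam (MonoidAlgebra.single y (b.coeff y)) δ =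
        lp.single 2 y (b.coeff y) := by
      intro y _
      rw [Lam_single]
      ext z
      simp only [lp.coeFn_smul, Pi.smul_apply, tr_apply, smul_eq_mul, δ, lp.coeFn_single]
      by_cases hz : z = y
      · subst hz; simp
      · have : y⁻¹ * z ≠ 1 := by
          intro h; apply hz; rw [inv_mul_eq_one] at h; exact h.symm
        simp [hz, this]
    rw [Finset.sum_congr rfl this, lp.coeFn_sum, Finset.sum_apply]
    simp only [lp.coeFn_single, Pi.single_apply]
    simp
    intro h; rw [h]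
  rw [← h3, h2]
  simp

/-- the two skew-adjoint perturbations -/
noncomputable def t1 (g : G) : MonoidAlgebra ℂ G :=
  MonoidAlgebra.single g ((1/8 : ℝ) * Complex.I) + MonoidAlgebra.single g⁻¹ ((1/8 : ℝ) * Complex.I)

noncomputable def t2 (g : G) : MonoidAlgebra ℂ G :=
  MonoidAlgebra.single g⁻¹ ((1/8 : ℝ) : ℂ) + MonoidAlgebra.single g (-((1/8 : ℝ) : ℂ))

theorem t1_mul (g : G) (b : MonoidAlgebra ℂ G) : t1 g * b = ((1/8 : ℝ) * Complex.I : ℂ) •
    (MonoidAlgebra.single g 1 * b + MonoidAlgebra.single g⁻¹ 1 * b) := by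
  rw [t1, add_mul, smul_add, ← smul_mul_assoc, ← smul_mul_assoc]
  simp

theorem t2_mul (g : G) (b : MonoidAlgebra ℂ G) : t2 g * b = ((1/8 : ℝ) : ℂ) •
    (MonoidAlgebra.single g⁻¹ 1 * b - MonoidAlgebra.single g 1 * b) := by
  rw [t2, add_mul, smul_sub, ← smul_mul_assoc, ← smul_mul_assoc, sub_eq_add_neg, ← neg_mul]
  congr 3
  · simp
  · rw [MonoidAlgebra.smul_single, ← MonoidAlgebra.single_neg]; simp

theorem exists_t (g : G) (b : MonoidAlgebra ℂ G) : ∃ t : MonoidAlgebra ℂ G, Expanding (1 + t) ∧ N t ≤ 1/4 ∧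
    N b / 8 ≤ N (t * b) ∧ (∀ x, b.coeff (g⁻¹ * x) = 0 → b.coeff (g * x) = 0 →
      (t * b).coeff x = 0) := by
  have h1 : N (t1 g * b) = 1/8 * N (MonoidAlgebra.single g 1 * b + MonoidAlgebra.single g⁻¹ 1 * b) := by
    rw [t1_mul, N_smul]; simp
  have h2 : N (t2 g * b) = 1/8 * N (MonoidAlgebra.single g⁻¹ 1 * b - MonoidAlgebra.single g 1 * b) := by
    rw [t2_mul, N_smul]; simp
  have h3 : 2 * N b ≤ N (MonoidAlgebra.single g 1 * b + MonoidAlgebra.single g⁻¹ 1 * b) +
      N (MonoidAlgebra.single g⁻¹ 1 * b - MonoidAlgebra.single g 1 * b) := by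
    have := N_add_le (MonoidAlgebra.single g 1 * b + MonoidAlgebra.single g⁻¹ 1 * b)
      (MonoidAlgebra.single g⁻¹ 1 * b - MonoidAlgebra.single g 1 * b)
    have e : (MonoidAlgebra.single g 1 * b + MonoidAlgebra.single g⁻¹ 1 * b) +
      (MonoidAlgebra.single g⁻¹ 1 * b - MonoidAlgebra.single g 1 * b) =
        (2 : ℂ) • (MonoidAlgebra.single g⁻¹ 1 * b) := by
      rw [two_smul]; abel
    rw [e, N_smul, N_single_mul] at this
    simpa using this
  rcases le_or_gt (N b / 8) (N (t1 g * b)) with h | h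
  · refine ⟨t1 g, expanding_im g _, ?_, h, ?_⟩
    · refine (N_add_le _ _).trans ?_
      rw [N_single, N_single]
      simp
      norm_num
    · intro x hx hx'
      rw [t1_mul]
      simp [MonoidAlgebra.coeff_single_mul_apply, hx, hx']
  · refine ⟨t2 g, expanding_re g _, ?_, ?_, ?_⟩
    · refine (N_add_le _ _).trans ?_
      rw [N_single, N_single]
      simp
      norm_num
    · rw [h1] at h
      rw [h2]
      linarith
    · intro x hx hx'
      rw [t2_mul]
      simp [MonoidAlgebra.coeff_single_mul_apply, hx, hx']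

theorem step [Infinite G] {a b : MonoidAlgebra ℂ G} (ha : Expanding a) (hb : b ≠ 0) {ρ : ℝ} (hρ : 0 ≤ ρ)
    (h : ρ * N (a * b) ≤ N b) :
    ∃ a' b' : MonoidAlgebra ℂ G, Expanding a' ∧ b' ≠ 0 ∧ (49/48 * ρ) * N (a' * b') ≤ N b' := by
  classical
  obtain ⟨g, hg⟩ := Infinite.exists_notMem_finset
    ((b.coeff.support ×ˢ b.coeff.support).image fun p => p.1 * p.2⁻¹)
  have hg' : ∀ x y, b.coeff x ≠ 0 → b.coeff y ≠ 0 → g ≠ x * y⁻¹ := by
    intro x y hx hy h
    apply hg
    rw [Finset.mem_image]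
    exact ⟨(x, y), by simp [hx, hy], h.symm⟩
  obtain ⟨t, ht, htN, htb, hsupp⟩ := exists_t g b
  have hab : 0 < N (a * b) := N_pos (ne_zero_of_expanding ha hb)
  have hNb : 0 < N b := N_pos hb
  -- choose the number of terms
  obtain ⟨K, hK⟩ : ∃ K : ℕ, N a * ((1/4 : ℝ) ^ (K + 2) * N b) ≤ 1/49 * N (a * b) := by
    have hpos : 0 ≤ N a * N b := mul_nonneg (N_nonneg _) (N_nonneg _)
    obtain ⟨K, hK⟩ := exists_pow_lt_of_lt_one (x := 1/49 * N (a * b) / (N a * N b + 1))
      (y := (1/4 : ℝ)) (by positivity) (by norm_num)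
    refine ⟨K, ?_⟩
    have h1 : (1/4 : ℝ) ^ (K + 2) ≤ (1/4 : ℝ) ^ K :=
      pow_le_pow_of_le_one (by norm_num) (by norm_num) (by omega)
    rw [lt_div_iff₀ (by positivity)] at hK
    nlinarith [pow_pos (show (0 : ℝ) < 1/4 by norm_num) K]
  set x : MonoidAlgebra ℂ G := -t with hx
  have hxN : N x ≤ 1/4 := by rw [hx, N_neg]; exact htN
  refine ⟨a * (1 + t), (∑ k ∈ Finset.range (K + 2), x ^ k) * b, ha.mul ht, ?_⟩
  have hprod : a * (1 + t) * ((∑ k ∈ Finset.range (K + 2), x ^ k) * b) =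
      a * b - a * (x ^ (K + 2) * b) := by
    have e : (1 + t) = 1 - x := by rw [hx]; abel
    calc a * (1 + t) * ((∑ k ∈ Finset.range (K + 2), x ^ k) * b)
        = a * (((1 - x) * ∑ k ∈ Finset.range (K + 2), x ^ k) * b) := by
          rw [e]; noncomm_ring
      _ = a * b - a * (x ^ (K + 2) * b) := by
          rw [mul_neg_geom_sum]; noncomm_ring
  have hsum : (∑ k ∈ Finset.range (K + 2), x ^ k) * b =
      (b + x * b) + ∑ k ∈ Finset.range K, x ^ (k + 2) * b := by
    rw [Finset.sum_range_succ', Finset.sum_range_succ', add_mul, add_mul, Finset.sum_mul]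
    simp only [pow_zero, one_mul, zero_add, pow_one, add_assoc]
    norm_num
    abel
  have hrest : N (∑ k ∈ Finset.range K, x ^ (k + 2) * b) ≤ 1/12 * N b := by
    refine (N_sum_le _ _).trans ?_
    have h1 : ∀ k ∈ Finset.range K, N (x ^ (k + 2) * b) ≤ (1/4 : ℝ) ^ k * (1/16 * N b) := by
      intro k _
      refine (N_pow_mul_le _ _ _).trans ?_
      have : N x ^ (k + 2) ≤ (1/4 : ℝ) ^ (k + 2) := pow_le_pow_left₀ (N_nonneg _) hxN _
      calc N x ^ (k + 2) * N b ≤ (1/4 : ℝ) ^ (k + 2) * N b := by gcongr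
        _ = (1/4 : ℝ) ^ k * (1/16 * N b) := by ring
    refine (Finset.sum_le_sum h1).trans ?_
    rw [← Finset.sum_mul]
    have h2 : ∑ k ∈ Finset.range K, (1/4 : ℝ) ^ k ≤ 4/3 := by
      have h3 : ∑ k ∈ Finset.range K, (1/4 : ℝ) ^ k ≤ ∑' k : ℕ, (1/4 : ℝ) ^ k :=
        Summable.sum_le_tsum _ (fun _ _ => by positivity)
          (summable_geometric_of_lt_one (by norm_num) (by norm_num))
      rw [tsum_geometric_of_lt_one (by norm_num) (by norm_num)] at h3
      norm_num at h3 ⊢
      exact h3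
    nlinarith
  have hmain : N b + N b / 8 ≤ N (b + x * b) := by
    rw [N_add_of_disjoint]
    · have : N (x * b) = N (t * b) := by rw [hx, neg_mul, N_neg]
      rw [this]; linarith
    · intro y
      by_cases hy : b.coeff y = 0
      · left; exact hy
      · right
        have : (x * b).coeff y = -((t * b).coeff y) := by rw [hx, neg_mul]; simp
        rw [this, hsupp y, neg_zero]
        · by_contra h0
          exact hg' y (g⁻¹ * y) hy h0 (by group)
        · by_contra h0
          exact hg' (g * y) y h0 hy (by group)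
  have hlow : 25/24 * N b ≤ N ((∑ k ∈ Finset.range (K + 2), x ^ k) * b) := by
    rw [hsum]
    have := N_sub_le ((b + x * b) + ∑ k ∈ Finset.range K, x ^ (k + 2) * b)
      (∑ k ∈ Finset.range K, x ^ (k + 2) * b)
    rw [add_sub_cancel_right] at this
    linarith
  have hup : N (a * (1 + t) * ((∑ k ∈ Finset.range (K + 2), x ^ k) * b)) ≤ 50/49 * N (a * b) := by
    rw [hprod]
    refine (N_sub_le _ _).trans ?_
    have h1 : N (a * (x ^ (K + 2) * b)) ≤ N a * ((1/4 : ℝ) ^ (K + 2) * N b) := by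
      refine (N_mul_le _ _).trans (mul_le_mul_of_nonneg_left ?_ (N_nonneg _))
      refine (N_pow_mul_le _ _ _).trans ?_
      have : N x ^ (K + 2) ≤ (1/4 : ℝ) ^ (K + 2) := pow_le_pow_left₀ (N_nonneg _) hxN _
      gcongr
    linarith
  refine ⟨?_, ?_⟩
  · intro h0
    rw [h0, N_zero] at hlow
    linarith
  · calc 49/48 * ρ * N (a * (1 + t) * ((∑ k ∈ Finset.range (K + 2), x ^ k) * b))
        ≤ 49/48 * ρ * (50/49 * N (a * b)) := by gcongr
      _ = 25/24 * (ρ * N (a * b)) := by ring
      _ ≤ 25/24 * N b := by gcongr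
      _ ≤ _ := hlow

theorem exists_growth [Infinite G] (n : ℕ) :
    ∃ a b : MonoidAlgebra ℂ G, Expanding a ∧ b ≠ 0 ∧ (49/48 : ℝ) ^ n * N (a * b) ≤ N b := by
  induction n with
  | zero => exact ⟨1, 1, Expanding.one, one_ne_zero, by simp⟩
  | succ n ih =>
    obtain ⟨a, b, ha, hb, h⟩ := ih
    obtain ⟨a', b', ha', hb', h'⟩ := step ha hb (by positivity) h
    exact ⟨a', b', ha', hb', by rw [pow_succ']; exact h'⟩

end L1G
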