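import Pool.Agent.helper28.L1.Defs

/-!
# The left regular representation on `ℓ₂(G)`
-/

open scoped ENNReal

namespace L1G

/-- `ℓ₂(G)`. -/
noncomputable abbrev L2 (G : Type*) := lp (fun _ : G => ℂ) 2

variable {G : Type*}

theorem summable_sq (f : L2 G) : Summable fun x => ‖f x‖ ^ 2 := by
  have h := (memℓp_gen_iff (by simp)).1 (lp.memℓp f)
  simpa using h

theorem norm_sq_eq (f : L2 G) : ‖f‖ ^ 2 = ∑' x, ‖f x‖ ^ 2 := by
  have h := lp.norm_rpow_eq_tsum (p := 2) (by simp) f
  simpa using h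

variable [Group G]

/-- Left translation by `g` on `ℓ₂(G)`, as a linear isometry. -/
noncomputable def tr (g : G) : L2 G →ₗᵢ[ℂ] L2 G where
  toFun f := ⟨fun x => f (g⁻¹ * x), by
    apply memℓp_gen
    have h := (Equiv.summable_iff (Equiv.mulLeft g⁻¹)).2 (summable_sq f)
    simpa [Function.comp_def] using h⟩
  map_add' _ _ := by ext; simp
  map_smul' _ _ := by ext; simp
  norm_map' f := by
    have h1 : ‖(⟨fun x => f (g⁻¹ * x), by
      apply memℓp_gen
      have h := (Equiv.summable_iff (Equiv.mulLeft g⁻¹)).2 (summable_sq f)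
      simpa [Function.comp_def] using h⟩ : L2 G)‖ ^ 2 = ‖f‖ ^ 2 := by
      rw [norm_sq_eq, norm_sq_eq]
      exact Equiv.tsum_eq (Equiv.mulLeft g⁻¹) (fun x => ‖f x‖ ^ 2)
    exact (sq_eq_sq₀ (norm_nonneg _) (norm_nonneg _)).1 h1

@[simp] theorem tr_apply (g : G) (f : L2 G) (x : G) : tr g f x = f (g⁻¹ * x) := rfl

theorem tr_mul (g h : G) (f : L2 G) : tr (g * h) f = tr g (tr h f) := by
  ext x; simp [mul_assoc]

theorem tr_one (f : L2 G) : tr (1 : G) f = f := by
  ext x; simp

/-- the left regular representation as a monoid homomorphism into bounded operators -/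
noncomputable def lam : G →* (L2 G →L[ℂ] L2 G) where
  toFun g := (tr g).toContinuousLinearMap
  map_one' := by ext f x; simp
  map_mul' g h := by
    ext f x
    simp [mul_assoc]

@[simp] theorem lam_apply (g : G) (f : L2 G) : lam g f = tr g f := rfl

theorem inner_tr (g : G) (f h : L2 G) : inner ℂ (tr g f) h = inner ℂ f (tr g⁻¹ h) := by
  have h1 : h = tr g (tr g⁻¹ h) := by rw [← tr_mul]; simp [tr_one]
  conv_lhs => rw [h1]
  exact (tr g).inner_map_map _ _

/-- The left regular representation of the complex group algebra. -/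
noncomputable def Lam : MonoidAlgebra ℂ G →ₐ[ℂ] (L2 G →L[ℂ] L2 G) :=
  MonoidAlgebra.lift ℂ (L2 G →L[ℂ] L2 G) G lam

theorem Lam_single (g : G) (c : ℂ) (f : L2 G) :
    Lam (MonoidAlgebra.single g c) f = c • tr g f := by
  simp [Lam, MonoidAlgebra.lift_single]

/-- `a` acts on `ℓ₂(G)` as an expanding operator. -/
def Expanding (a : MonoidAlgebra ℂ G) : Prop := ∀ f : L2 G, ‖f‖ ≤ ‖Lam a f‖

theorem Expanding.one : Expanding (1 : MonoidAlgebra ℂ G) := fun f => by simp

theorem Expanding.mul {a b : MonoidAlgebra ℂ G} (ha : Expanding a) (hb : Expanding b) :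
    Expanding (a * b) := fun f => by
  rw [map_mul]
  exact (hb f).trans (ha _)

theorem expanding_of_re_inner {t : MonoidAlgebra ℂ G}
    (ht : ∀ f : L2 G, (inner ℂ f (Lam t f)).re = 0) : Expanding (1 + t) := fun f => by
  have h1 : ‖Lam (1 + t) f‖ ^ 2 = ‖f‖ ^ 2 + ‖Lam t f‖ ^ 2 := by
    rw [map_add, map_one, add_apply, one_apply_eq_self,
      @norm_add_sq ℂ]
    simp [ht f]
  have h2 : ‖f‖ ^ 2 ≤ ‖Lam (1 + t) f‖ ^ 2 := by
    rw [h1]; nlinarith [sq_nonneg ‖Lam t f‖]
  exact (sq_le_sq₀ (norm_nonneg _) (norm_nonneg _)).1 h2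

theorem expanding_im (g : G) (θ : ℝ) :
    Expanding (1 + (MonoidAlgebra.single g (θ * Complex.I) +
      MonoidAlgebra.single g⁻¹ (θ * Complex.I)) : MonoidAlgebra ℂ G) := by
  apply expanding_of_re_inner
  intro f
  rw [map_add, add_apply, Lam_single, Lam_single, inner_add_right,
    inner_smul_right, inner_smul_right]
  have h1 : inner ℂ f (tr g⁻¹ f) = (starRingEnd ℂ) (inner ℂ f (tr g f)) := by
    rw [← inner_tr, inner_conj_symm]
  rw [h1]
  generalize (inner ℂ f (tr g f) : ℂ) = z
  simp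

theorem expanding_re (g : G) (θ : ℝ) :
    Expanding (1 + (MonoidAlgebra.single g⁻¹ (θ : ℂ) +
      MonoidAlgebra.single g (-(θ : ℂ))) : MonoidAlgebra ℂ G) := by
  apply expanding_of_re_inner
  intro f
  rw [map_add, add_apply, Lam_single, Lam_single, inner_add_right,
    inner_smul_right, inner_smul_right]
  have h1 : inner ℂ f (tr g⁻¹ f) = (starRingEnd ℂ) (inner ℂ f (tr g f)) := by
    rw [← inner_tr, inner_conj_symm]
  rw [h1]
  generalize (inner ℂ f (tr g f) : ℂ) = z
  simp

/-! ### `ℓ₁` acting on `ℓ₂` -/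

/-- an `ℓ₁` function as an `ℓ₂` function -/
noncomputable def toL2 (f : L1 G) : L2 G := ⟨f, (lp.memℓp f).of_exponent_ge (by norm_num)⟩

omit [Group G] in
@[simp] theorem toL2_apply (f : L1 G) (x : G) : toL2 f x = f x := rfl

theorem summable_act (u : L1 G) (f : L2 G) : Summable fun g => u g • tr g f := by
  apply Summable.of_norm
  simp only [norm_smul, LinearIsometry.norm_map]
  exact (summable_norm u).mul_right _

/-- The action of `u ∈ ℓ₁(G)` on `ℓ₂(G)`. -/
noncomputable def act (u : L1 G) (f : L2 G) : L2 G := ∑' g, u g • tr g f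

theorem norm_act_le (u : L1 G) (f : L2 G) : ‖act u f‖ ≤ ‖u‖ * ‖f‖ := by
  unfold act
  have h : Summable fun g => ‖u g • tr g f‖ := by
    simp only [norm_smul, LinearIsometry.norm_map]
    exact (summable_norm u).mul_right _
  refine (norm_tsum_le_tsum_norm h).trans ?_
  simp only [norm_smul, LinearIsometry.norm_map]
  rw [tsum_mul_right, norm_eq]

theorem act_sub (u v : L1 G) (f : L2 G) : act (u - v) f = act u f - act v f := by
  unfold act
  rw [← (summable_act u f).tsum_sub (summable_act v f)]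
  congr 1
  funext g
  rw [lp.coeFn_sub, Pi.sub_apply, sub_smul]

theorem act_toL2 (u v : L1 G) : act u (toL2 v) = toL2 (conv u v) := by
  ext x
  rw [toL2_apply, conv_apply, act]
  let φ : L2 G →L[ℂ] ℂ := lp.evalCLM ℂ (fun _ : G => ℂ) 2 x
  have h := φ.map_tsum (summable_act u (toL2 v))
  have h2 : ∀ f : L2 G, φ f = f x := fun f => rfl
  rw [h2] at h
  rw [h]
  congr 1

end L1G
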